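import Pool.Agent.H79.PRK.S9
import Pool.Agent.H36.T1.GRA

/-!
# PRK: heights on `K` (AAVK)
-/

set_option autoImplicit false
set_option linter.all false

namespace Pool.PRK

open Polynomial Pool.T1 IsDedekindDomain

namespace AAVKaux

open scoped NNReal

section Card

variable {R : Type} [CommRing R] [IsDedekindDomain R]

/-- The size of a quotient is multiplicative. -/
noncomputable def NH (R : Type) [CommRing R] [IsDedekindDomain R] [Infinite R] : Ideal R →* ℕ where
  toFun I := Submodule.cardQuot I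
  map_one' := by simp
  map_mul' I J := UniqueFactorizationMonoid.multiplicative_of_coprime Submodule.cardQuot I J
    (Submodule.cardQuot_bot _ _)
    (fun {I J} hI => by simp [Ideal.isUnit_iff.mp hI, Ideal.mul_top])
    (fun {I} i hI =>
      have : Ideal.IsPrime I := Ideal.isPrime_of_prime hI
      cardQuot_pow_of_prime hI.ne_zero)
    fun {I J} hIJ => cardQuot_mul_of_coprime <| Ideal.isCoprime_iff_sup_eq.mpr
      (Ideal.isUnit_iff.mp
        (hIJ (Ideal.dvd_iff_le.mpr le_sup_left) (Ideal.dvd_iff_le.mpr le_sup_right)))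

lemma NH_apply [Infinite R] (I : Ideal R) : NH R I = Nat.card (R ⧸ I) := rfl

end Card

section Inf

variable {R : Type} [CommRing R] [IsDedekindDomain R] {K : Type} [Field K] [Algebra R K]
  [IsFractionRing R K] {O : ValuationSubring K} {π : K}

/-- `x` has order `n` at infinity. -/
def IsO (O : ValuationSubring K) (π x : K) (n : ℤ) : Prop := x / π ^ n ∈ O ∧ (x / π ^ n)⁻¹ ∈ O

lemma zp (h : π ∈ O) {n : ℤ} (hn : 0 ≤ n) : π ^ n ∈ O := by
  obtain ⟨k, rfl⟩ := Int.eq_ofNat_of_zero_le hn
  rw [zpow_natCast]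
  exact pow_mem h k

lemma IsO.iff (hG : GR R O π) {x : K} {n : ℤ} (h : IsO O π x n) (hx : x ≠ 0) (m : ℤ) :
    x / π ^ m ∈ O ↔ m ≤ n := by
  have hp := hG.pi_ne
  constructor
  · intro hm
    by_contra hlt
    push Not at hlt
    have h3 : (x / π ^ n)⁻¹ * (x / π ^ m) ∈ O := mul_mem h.2 hm
    have e3 : (x / π ^ n)⁻¹ * (x / π ^ m) = π ^ (n - m) := by
      rw [zpow_sub₀ hp]
      have := zpow_ne_zero n hp
      have := zpow_ne_zero m hp
      field_simp
    rw [e3] at h3
    have h4 : π ^ (n - m) * π ^ (m - n - 1) ∈ O := mul_mem h3 (zp hG.pi_mem (by omega))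
    rw [← zpow_add₀ hp] at h4
    have e4 : n - m + (m - n - 1) = -1 := by ring
    rw [e4, zpow_neg_one] at h4
    exact hG.pi_inv h4
  · intro hm
    have e : x / π ^ m = (x / π ^ n) * π ^ (n - m) := by
      rw [zpow_sub₀ hp]
      have := zpow_ne_zero n hp
      have := zpow_ne_zero m hp
      field_simp
    rw [e]
    exact mul_mem h.1 (zp hG.pi_mem (by omega))

lemma IsO.uniq (hG : GR R O π) {x : K} {n n' : ℤ} (h : IsO O π x n) (h' : IsO O π x n')
    (hx : x ≠ 0) : n = n' :=
  le_antisymm ((h'.iff hG hx n).1 h.1) ((h.iff hG hx n').1 h'.1)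

lemma IsO.mul (hG : GR R O π) {x y : K} {n m : ℤ} (h : IsO O π x n) (h' : IsO O π y m) :
    IsO O π (x * y) (n + m) := by
  have hp := hG.pi_ne
  have e : x * y / π ^ (n + m) = (x / π ^ n) * (y / π ^ m) := by
    rw [zpow_add₀ hp]
    have := zpow_ne_zero n hp
    have := zpow_ne_zero m hp
    field_simp
  unfold IsO
  rw [e, mul_inv]
  exact ⟨mul_mem h.1 h'.1, mul_mem h.2 h'.2⟩

open Classical in
/-- the order -/
noncomputable def od (hG : GR R O π) (x : K) : ℤ :=
  if hx : x = 0 then 0 else (hG.val x hx).choose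

lemma od_spec (hG : GR R O π) (x : K) (hx : x ≠ 0) : IsO O π x (od hG x) := by
  unfold od
  rw [dif_neg hx]
  exact (hG.val x hx).choose_spec

lemma od_eq (hG : GR R O π) {x : K} (hx : x ≠ 0) {n : ℤ} (h : IsO O π x n) : od hG x = n :=
  (od_spec hG x hx).uniq hG h hx

lemma od_mul (hG : GR R O π) {x y : K} (hx : x ≠ 0) (hy : y ≠ 0) :
    od hG (x * y) = od hG x + od hG y :=
  od_eq hG (mul_ne_zero hx hy) ((od_spec hG x hx).mul hG (od_spec hG y hy))

lemma od_iff (hG : GR R O π) {x : K} (hx : x ≠ 0) (m : ℤ) : x / π ^ m ∈ O ↔ m ≤ od hG x :=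
  (od_spec hG x hx).iff hG hx m

lemma od_add (hG : GR R O π) {x y : K} (hx : x ≠ 0) (hy : y ≠ 0) (hxy : x + y ≠ 0) :
    min (od hG x) (od hG y) ≤ od hG (x + y) := by
  rw [← od_iff hG hxy, add_div]
  exact add_mem ((od_iff hG hx _).2 (min_le_left _ _)) ((od_iff hG hy _).2 (min_le_right _ _))

lemma one_lt_qq (hG : GR R O π) : 1 < qq O := by
  haveI := hG.res
  exact Finite.one_lt_card

lemma inf_R (hG : GR R O π) : Infinite R := by
  by_contra hfin
  rw [not_infinite_iff_finite] at hfin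
  obtain ⟨c, hc⟩ := hG.big
  have h1 : ∀ m : ℕ, (Lm R O π (m : ℤ)).ncard ≤ Nat.card R := by
    intro m
    rw [← Set.ncard_univ]
    exact Set.ncard_le_ncard (Set.subset_univ _) (Set.toFinite _)
  have h2 := one_lt_qq hG
  have h3 : c * Nat.card R < 2 ^ (c * Nat.card R) := Nat.lt_two_pow_self
  have h4 : 2 ^ (c * Nat.card R) ≤ qq O ^ (c * Nat.card R) := Nat.pow_le_pow_left h2 _
  have h5 := (hc (c * Nat.card R)).trans (Nat.mul_le_mul_left c (h1 _))
  omega

open Classical in
/-- the absolute value at infinity -/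
noncomputable def aInf (hG : GR R O π) : AbsoluteValue K ℝ where
  toFun x := if x = 0 then 0 else (qq O : ℝ) ^ (-od hG x)
  map_mul' x y := by
    by_cases hx : x = 0
    · simp [hx]
    by_cases hy : y = 0
    · simp [hy]
    have h1 : (qq O : ℝ) ≠ 0 := by
      have := one_lt_qq hG
      positivity
    rw [if_neg (mul_ne_zero hx hy), if_neg hx, if_neg hy, od_mul hG hx hy, neg_add,
      zpow_add₀ h1]
  nonneg' x := by
    split_ifs
    · exact le_rfl
    · positivity
  eq_zero' x := by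
    constructor
    · intro h
      by_contra hx
      rw [if_neg hx] at h
      have h1 : (0 : ℝ) < qq O := by
        have := one_lt_qq hG
        positivity
      exact (zpow_pos h1 _).ne' h
    · intro h
      rw [if_pos h]
  add_le' x y := by
    have h1 : (1 : ℝ) < qq O := by exact_mod_cast one_lt_qq hG
    have h0 : (0 : ℝ) < qq O := by linarith
    by_cases hx : x = 0
    · simp [hx]
    by_cases hy : y = 0
    · simp [hy]
    by_cases hxy : x + y = 0
    · rw [if_pos hxy, if_neg hx, if_neg hy]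
      positivity
    rw [if_neg hx, if_neg hy, if_neg hxy]
    have h2 := od_add hG hx hy hxy
    rcases min_le_iff.1 h2 with h | h
    · have := zpow_le_zpow_right₀ h1.le (neg_le_neg h)
      have h3 := zpow_pos h0 (-od hG y)
      linarith
    · have := zpow_le_zpow_right₀ h1.le (neg_le_neg h)
      have h3 := zpow_pos h0 (-od hG x)
      linarith

lemma aInf_ne (hG : GR R O π) (x : K) (hx : x ≠ 0) : aInf hG x = (qq O : ℝ) ^ (-od hG x) :=
  if_neg hx

end Inf

section Fin

variable {R : Type} [CommRing R] [IsDedekindDomain R] {K : Type} [Field K] [Algebra R K]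
  [IsFractionRing R K]

lemma one_lt_Nm (hfin : ∀ I : Ideal R, I ≠ ⊥ → Finite (R ⧸ I)) (v : HeightOneSpectrum R) :
    1 < (Nm v : ℝ≥0) := by
  haveI := hfin v.asIdeal v.ne_bot
  haveI : Nontrivial (R ⧸ v.asIdeal) := Ideal.Quotient.nontrivial_iff.2 v.isPrime.ne_top
  have : 1 < Nm v := Finite.one_lt_card
  exact_mod_cast this

/-- the absolute value of a prime -/
noncomputable def abv (K : Type) [Field K] [Algebra R K] [IsFractionRing R K]
    (hfin : ∀ I : Ideal R, I ≠ ⊥ → Finite (R ⧸ I)) (v : HeightOneSpectrum R) :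
    AbsoluteValue K ℝ := v.adicAbv (one_lt_Nm hfin v)

variable (hfin : ∀ I : Ideal R, I ≠ ⊥ → Finite (R ⧸ I))
include hfin

lemma abv_le (v : HeightOneSpectrum R) (p : R) : abv K hfin v (algebraMap R K p) ≤ 1 :=
  v.adicAbv_coe_le_one (one_lt_Nm hfin v) p

lemma abv_lt_iff (v : HeightOneSpectrum R) (p : R) :
    abv K hfin v (algebraMap R K p) < 1 ↔ p ∈ v.asIdeal :=
  v.adicAbv_coe_lt_one_iff (one_lt_Nm hfin v) p

lemma abv_eq_iff (v : HeightOneSpectrum R) (p : R) :
    abv K hfin v (algebraMap R K p) = 1 ↔ p ∉ v.asIdeal :=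
  v.adicAbv_coe_eq_one_iff (one_lt_Nm hfin v) p

lemma abv_inj : Function.Injective (abv K hfin) := by
  intro v w h
  apply HeightOneSpectrum.ext
  ext p
  rw [← abv_lt_iff (K := K) hfin, ← abv_lt_iff (K := K) hfin, h]

lemma abv_val (v : HeightOneSpectrum R) (x : K) (hx : x ≠ 0) :
    abv K hfin v x = (Nm v : ℝ) ^ WithZero.log (v.valuation K x) := by
  have h0 : v.valuation K x ≠ 0 := (Valuation.ne_zero_iff _).2 hx
  have h1 : abv K hfin v x = ((WithZeroMulInt.toNNReal (ne_zero_of_lt (one_lt_Nm hfin v))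
    (v.valuation K x) : ℝ≥0) : ℝ) := rfl
  rw [h1, WithZeroMulInt.toNNReal_neg_apply _ h0, WithZero.toAdd_unzero_eq_log]
  push_cast
  rfl

lemma finite_supp (p : R) (hp : p ≠ 0) :
    (fun v => abv K hfin v (algebraMap R K p)).HasFiniteMulSupport := by
  have h := Ideal.finite_factors (I := Ideal.span {p})
    (by rwa [Ne, Submodule.zero_eq_bot, Ideal.span_singleton_eq_bot])
  refine h.subset fun v hv => ?_
  rw [Function.mem_mulSupport] at hv
  have h1 : p ∈ v.asIdeal := by
    by_contra hc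
    exact hv ((abv_eq_iff hfin v p).2 hc)
  show v.asIdeal ∣ Ideal.span {p}
  rw [Ideal.dvd_span_singleton]
  exact h1

lemma finite_supp' (x : K) (hx : x ≠ 0) :
    (fun v => abv K hfin v x).HasFiniteMulSupport := by
  obtain ⟨a, b, hb, rfl⟩ := IsFractionRing.div_surjective (A := R) x
  have hb0 : b ≠ 0 := nonZeroDivisors.ne_zero hb
  have ha0 : a ≠ 0 := by
    rintro rfl
    simp at hx
  have h1 := finite_supp (K := K) hfin a ha0
  have h2 := finite_supp (K := K) hfin b hb0
  refine (h1.union h2).subset fun v hv => ?_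
  rw [Function.mem_mulSupport] at hv
  by_contra hc
  rw [Set.mem_union, not_or] at hc
  have h3 := Function.notMem_mulSupport.1 hc.1
  have h4 := Function.notMem_mulSupport.1 hc.2
  apply hv
  rw [map_div₀, h3, h4, div_one]

/-- the exponent of the denominator -/
noncomputable def ex (x : K) (v : HeightOneSpectrum R) : ℕ :=
  (WithZero.log (v.valuation K x)).toNat

lemma max_eq (x : K) (hx : x ≠ 0) (v : HeightOneSpectrum R) :
    max (abv K hfin v x) 1 = (Nm v : ℝ) ^ ex x v := by
  have h1 : (1 : ℝ) < Nm v := by exact_mod_cast one_lt_Nm hfin v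
  have h0 : (0 : ℝ) < Nm v := by linarith
  rw [abv_val hfin v x hx]
  unfold ex
  rcases le_total 0 (WithZero.log (v.valuation K x)) with h | h
  · rw [max_eq_left (one_le_zpow₀ h1.le h), ← zpow_natCast, Int.toNat_of_nonneg h]
  · rw [max_eq_right (zpow_le_one_of_nonpos₀ h1.le h), Int.toNat_of_nonpos h, pow_zero]

/-- the denominator ideal -/
noncomputable def den (x : K) : Ideal R := ∏ᶠ v : HeightOneSpectrum R, v.asIdeal ^ ex x v

lemma den_supp (x : K) (hx : x ≠ 0) :
    (fun v : HeightOneSpectrum R => v.asIdeal ^ ex x v).HasFiniteMulSupport := by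
  refine (finite_supp' hfin x hx).subset fun v hv => ?_
  rw [Function.mem_mulSupport] at hv ⊢
  intro h
  apply hv
  have h1 := max_eq hfin x hx v
  rw [h, max_self] at h1
  have h2 : (1 : ℝ) < Nm v := by exact_mod_cast one_lt_Nm hfin v
  have h3 : ex x v = 0 := by
    by_contra h3
    exact (one_lt_pow₀ h2 h3).ne h1
  rw [h3, pow_zero]

omit hfin [IsFractionRing R K] [Algebra R K] [Field K] in
lemma card_pow (v : HeightOneSpectrum R) (k : ℕ) :
    Submodule.cardQuot (v.asIdeal ^ k) = Nm v ^ k := by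
  haveI := v.isPrime
  exact cardQuot_pow_of_prime v.ne_bot

lemma card_den [Infinite R] (x : K) (hx : x ≠ 0) :
    (Nat.card (R ⧸ den (R := R) x) : ℝ) = ∏ᶠ v : HeightOneSpectrum R, max (abv K hfin v x) 1 := by
  have h1 := MonoidHom.map_finprod ((Nat.castRingHom ℝ).toMonoidHom.comp (NH R))
    (den_supp hfin x hx)
  have h2 : ((Nat.castRingHom ℝ).toMonoidHom.comp (NH R)) (den (R := R) x) =
    (Nat.card (R ⧸ den (R := R) x) : ℝ) := rfl
  rw [← h2]
  unfold den
  rw [h1]
  refine finprod_congr fun v => ?_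
  rw [max_eq hfin x hx v]
  have h3 : ((Nat.castRingHom ℝ).toMonoidHom.comp (NH R)) (v.asIdeal ^ ex x v) =
    ((Submodule.cardQuot (v.asIdeal ^ ex x v) : ℕ) : ℝ) := rfl
  rw [h3, card_pow]
  push_cast
  rfl

lemma den_mul (x : K) (hx : x ≠ 0) (r : R) (hr : r ∈ den x) :
    ∃ t : R, algebraMap R K t = algebraMap R K r * x := by
  refine HeightOneSpectrum.mem_integers_of_valuation_le_one K _ fun v => ?_
  have h1 : v.asIdeal ^ ex x v ∣ den x := finprod_mem_dvd v (den_supp hfin x hx)
  have h2 : r ∈ v.asIdeal ^ ex x v := Ideal.dvd_iff_le.1 h1 hr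
  rw [← HeightOneSpectrum.intValuation_le_pow_iff_mem] at h2
  rw [map_mul, HeightOneSpectrum.valuation_of_algebraMap]
  have h0 : v.valuation K x ≠ 0 := (Valuation.ne_zero_iff _).2 hx
  calc v.intValuation r * v.valuation K x ≤
        WithZero.exp (-(ex x v : ℤ)) * WithZero.exp (ex x v : ℤ) := by
        refine mul_le_mul' h2 ?_
        rw [← WithZero.exp_log h0, WithZero.exp_le_exp]
        exact Int.self_le_toNat _
    _ = 1 := by rw [← WithZero.exp_add, neg_add_cancel, WithZero.exp_zero]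

lemma prod_int [Infinite R] (a : R) (ha : a ≠ 0) :
    ∏ᶠ v, abv K hfin v (algebraMap R K a) = ((Nat.card (R ⧸ Ideal.span {a}) : ℝ))⁻¹ := by
  have ha' : algebraMap R K a ≠ 0 := by
    rw [Ne, FaithfulSMul.algebraMap_eq_zero_iff]; exact ha
  have hI : Ideal.span {a} ≠ (0 : Ideal R) := by
    rwa [Ne, Submodule.zero_eq_bot, Ideal.span_singleton_eq_bot]
  have h1 := MonoidHom.map_finprod ((Nat.castRingHom ℝ).toMonoidHom.comp (NH R))
    (Ideal.hasFiniteMulSupport hI)
  rw [Ideal.finprod_heightOneSpectrum_factorization hI] at h1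
  have h2 : ((Nat.castRingHom ℝ).toMonoidHom.comp (NH R)) (Ideal.span {a}) =
    (Nat.card (R ⧸ Ideal.span {a}) : ℝ) := rfl
  rw [← h2, h1, ← finprod_inv_distrib]
  refine finprod_congr fun v => ?_
  have h3 : ((Nat.castRingHom ℝ).toMonoidHom.comp (NH R)) (v.maxPowDividing (Ideal.span {a})) =
    ((Submodule.cardQuot (v.maxPowDividing (Ideal.span {a})) : ℕ) : ℝ) := rfl
  rw [h3, HeightOneSpectrum.maxPowDividing, card_pow, abv_val hfin v _ ha',
    HeightOneSpectrum.valuation_of_algebraMap, HeightOneSpectrum.intValuation_if_neg _ ha]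
  rw [WithZero.log_exp, zpow_neg]
  push_cast
  rw [zpow_natCast]

end Fin

section Height

variable {R : Type} [CommRing R] [IsDedekindDomain R] {K : Type} [Field K] [Algebra R K]
  [IsFractionRing R K] {O : ValuationSubring K} {π : K}

/-- the equivalence between places and absolute values -/
noncomputable def ee (hfin : ∀ I : Ideal R, I ≠ ⊥ → Finite (R ⧸ I)) :
    HeightOneSpectrum R ≃ Set.range (abv K hfin) := Equiv.ofInjective _ (abv_inj hfin)

lemma prod_all (hG : GR R O π) (hD : GRDStmt) (x : K) (hx : x ≠ 0) :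
    aInf hG x * ∏ᶠ v, abv K hG.fin v x = 1 := by
  haveI := inf_R hG
  have hq : (qq O : ℝ) ≠ 0 := by
    have := one_lt_qq hG
    positivity
  have key : ∀ a : R, a ≠ 0 →
      aInf hG (algebraMap R K a) * ∏ᶠ v, abv K hG.fin v (algebraMap R K a) = 1 := by
    intro a ha
    have ha' : algebraMap R K a ≠ 0 := by
      rw [Ne, FaithfulSMul.algebraMap_eq_zero_iff]; exact ha
    obtain ⟨n, h1, h2, h3, -⟩ := hD R K O π hG a ha
    have h4 : od hG (algebraMap R K a) = -(n : ℤ) := by
      refine od_eq hG ha' ?_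
      have e : algebraMap R K a / π ^ (-(n : ℤ)) = algebraMap R K a * π ^ n := by
        rw [zpow_neg, div_inv_eq_mul, zpow_natCast]
      unfold IsO
      rw [e]
      exact ⟨h1, h2⟩
    rw [aInf_ne hG _ ha', h4, neg_neg, prod_int hG.fin a ha, h3, zpow_natCast]
    push_cast
    exact mul_inv_cancel₀ (pow_ne_zero _ hq)
  obtain ⟨a, b, hb, rfl⟩ := IsFractionRing.div_surjective (A := R) x
  have hb0 : b ≠ 0 := nonZeroDivisors.ne_zero hb
  have ha0 : a ≠ 0 := by
    rintro rfl
    simp at hx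
  have hb' : algebraMap R K b ≠ 0 := by
    rw [Ne, FaithfulSMul.algebraMap_eq_zero_iff]; exact hb0
  have k1 := key a ha0
  have k2 := key b hb0
  have e : ∏ᶠ v, abv K hG.fin v (algebraMap R K a) =
      (∏ᶠ v, abv K hG.fin v (algebraMap R K a / algebraMap R K b)) *
        ∏ᶠ v, abv K hG.fin v (algebraMap R K b) := by
    rw [← finprod_mul_distrib (finite_supp' hG.fin _ hx) (finite_supp hG.fin b hb0)]
    refine finprod_congr fun v => ?_
    rw [← map_mul, div_mul_cancel₀ _ hb']
  have e2 : aInf hG (algebraMap R K a) =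
      aInf hG (algebraMap R K a / algebraMap R K b) * aInf hG (algebraMap R K b) := by
    rw [← map_mul, div_mul_cancel₀ _ hb']
  rw [e, e2, mul_mul_mul_comm, k2, mul_one] at k1
  exact k1

/-- the admissible absolute values -/
@[instance_reducible] noncomputable def inst (hG : GR R O π) (hD : GRDStmt) :
    Height.AdmissibleAbsValues K where
  archAbsVal := {aInf hG}
  nonarchAbsVal := Set.range (abv K hG.fin)
  isNonarchimedean := by
    rintro _ ⟨v, rfl⟩
    exact v.isNonarchimedean_adicAbv (one_lt_Nm hG.fin v)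
  hasFiniteMulSupport := by
    intro x hx
    have h := finite_supp' hG.fin x hx
    refine (h.image (ee hG.fin)).subset ?_
    intro w hw
    obtain ⟨v, rfl⟩ := (ee hG.fin).surjective w
    exact ⟨v, hw, rfl⟩
  product_formula := by
    intro x hx
    rw [Multiset.map_singleton, Multiset.prod_singleton]
    have e : ∏ᶠ v : Set.range (abv K hG.fin), v.val x = ∏ᶠ v, abv K hG.fin v x :=
      (finprod_comp_equiv (ee hG.fin) (f := fun v => v.val x)).symm
    rw [e]
    exact prod_all hG hD x hx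

lemma height_eq (hG : GR R O π) (hD : GRDStmt) (x : K) :
    @Height.mulHeight₁ K _ (inst hG hD) x =
      max (aInf hG x) 1 * ∏ᶠ v, max (abv K hG.fin v x) 1 := by
  have e0 : @Height.mulHeight₁ K _ (inst hG hD) x =
      (Multiset.map (fun v : AbsoluteValue K ℝ => max (v x) 1) {aInf hG}).prod *
        ∏ᶠ v : Set.range (abv K hG.fin), max (v.val x) 1 := rfl
  rw [e0, Multiset.map_singleton, Multiset.prod_singleton]
  congr 1
  exact (finprod_comp_equiv (ee hG.fin) (f := fun v => max (v.val x) 1)).symm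

lemma height_bd (hG : GR R O π) (hD : GRDStmt) (x : K) (hx : x ≠ 0) (B : ℝ)
    (h : @Height.mulHeight₁ K _ (inst hG hD) x ≤ B) :
    aInf hG x ≤ B ∧ (Nat.card (R ⧸ den (R := R) x) : ℝ) ≤ B := by
  haveI := inf_R hG
  rw [height_eq, ← card_den hG.fin x hx] at h
  have h1 : (0 : ℝ) ≤ Nat.card (R ⧸ den (R := R) x) := by positivity
  have h2 : (1 : ℝ) ≤ Nat.card (R ⧸ den (R := R) x) := by
    rw [card_den hG.fin x hx]
    exact one_le_finprod fun v => le_max_right _ _
  have h3 : (1 : ℝ) ≤ max (aInf hG x) 1 := le_max_right _ _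
  have h4 : aInf hG x ≤ max (aInf hG x) 1 := le_max_left _ _
  constructor
  · nlinarith
  · nlinarith

lemma northcott (hG : GR R O π) (hD : GRDStmt) (B : ℝ) :
    {x : K | @Height.mulHeight₁ K _ (inst hG hD) x ≤ B}.Finite := by
  haveI := inf_R hG
  obtain ⟨-, hfin, -, ⟨c, hc⟩, -⟩ := gra R K O π hG
  have h1 : (1 : ℝ) < qq O := by exact_mod_cast one_lt_qq hG
  obtain ⟨M, hM⟩ := pow_unbounded_of_one_lt B h1
  obtain ⟨m, hm⟩ := pow_unbounded_of_one_lt (c * B) h1
  have hm' : ∀ k : ℕ, (k : ℝ) ≤ B → k < (Lm R O π (m : ℤ)).ncard := by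
    intro k hk
    by_contra hlt
    push Not at hlt
    have h2 : ((qq O ^ (m + 1) : ℕ) : ℝ) ≤ c * k := by
      exact_mod_cast (hc m).trans (Nat.mul_le_mul_left c hlt)
    push_cast at h2
    have h3 : (qq O : ℝ) ^ m ≤ (qq O : ℝ) ^ (m + 1) := pow_le_pow_right₀ h1.le (Nat.le_succ m)
    have h4 : (c : ℝ) * k ≤ c * B := mul_le_mul_of_nonneg_left hk (by positivity)
    linarith
  have hF := ((hfin ((m : ℤ) + M)).1.prod (hfin (m : ℤ)).1).image
    (fun p : R × R => algebraMap R K p.1 / algebraMap R K p.2)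
  refine (hF.union (Set.finite_singleton (0 : K))).subset ?_
  intro x hx
  by_cases hx0 : x = 0
  · exact Or.inr hx0
  left
  obtain ⟨ha, hd⟩ := height_bd hG hD x hx0 B hx
  haveI : Finite (R ⧸ den (R := R) x) := by
    refine hG.fin _ ?_
    intro h0
    have h5 : (1 : ℝ) ≤ Nat.card (R ⧸ den (R := R) x) := by
      rw [card_den hG.fin x hx0]
      exact one_le_finprod fun v => le_max_right _ _
    have h6 : Nat.card (R ⧸ den (R := R) x) = 0 := by
      rw [h0]
      exact Submodule.cardQuot_bot _ _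
    rw [h6] at h5
    norm_num at h5
  -- the denominator
  obtain ⟨a, ha1, b, hb1, hab, hab2⟩ : ∃ a ∈ Lm R O π (m : ℤ), ∃ b ∈ Lm R O π (m : ℤ), a ≠ b ∧
      Ideal.Quotient.mk (den (R := R) x) a = Ideal.Quotient.mk (den (R := R) x) b := by
    refine Set.exists_ne_map_eq_of_ncard_lt_of_maps_to (t := Set.univ) ?_ (fun _ _ => Set.mem_univ _)
      (Set.toFinite _)
    rw [Set.ncard_univ]
    exact hm' _ hd
  set s : R := a - b with hs
  have hs0 : s ≠ 0 := sub_ne_zero.2 hab
  have hsd : s ∈ den x := Ideal.Quotient.eq.1 hab2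
  have hsL : s ∈ Lm R O π (m : ℤ) := by
    show algebraMap R K (a - b) * π ^ (m : ℤ) ∈ O
    rw [map_sub, sub_mul]
    exact sub_mem ha1 hb1
  obtain ⟨t, ht⟩ := den_mul hG.fin x hx0 s hsd
  have hs' : algebraMap R K s ≠ 0 := by
    rw [Ne, FaithfulSMul.algebraMap_eq_zero_iff]; exact hs0
  have hos : -(m : ℤ) ≤ od hG (algebraMap R K s) := by
    rw [← od_iff hG hs', zpow_neg, div_inv_eq_mul]
    exact hsL
  have hox : -(M : ℤ) ≤ od hG x := by
    rw [aInf_ne hG x hx0] at ha
    have h7 : (qq O : ℝ) ^ (-od hG x) < (qq O : ℝ) ^ (M : ℤ) := by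
      rw [zpow_natCast]
      exact ha.trans_lt hM
    have h8 := (zpow_lt_zpow_iff_right₀ h1).1 h7
    omega
  refine ⟨(t, s), ⟨?_, hsL⟩, ?_⟩
  · show algebraMap R K t * π ^ ((m : ℤ) + M) ∈ O
    rw [ht, ← div_inv_eq_mul, ← zpow_neg, od_iff hG (mul_ne_zero hs' hx0), od_mul hG hs' hx0]
    omega
  · show algebraMap R K t / algebraMap R K s = x
    rw [ht, mul_div_cancel_left₀ _ hs']

end Height

end AAVKaux

/-- AAVK. -/
theorem aavk : AAVKStmt := by
  intro R _ _ K _ _ _ O π hG hD
  exact ⟨AAVKaux.inst hG hD, ⟨fun B => AAVKaux.northcott hG hD B⟩⟩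

end Pool.PRK
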